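import Pool.Agent.W323.PT.Stm

/-! Part `One` of the project PT: one pattern position. -/

set_option autoImplicit false

namespace Pool.Agent.W577.PT

open Pool.Agent.W323.PT

/-- resampling one coordinate -/
theorem resample (m : ℕ) (ι : Type) [Fintype ι] (w : ι → ℝ) (hw : ∑ i, w i = 1) (s : Fin m)
    (G : (Fin m → ι) → ℝ) :
    ∑ f : Fin m → ι, (∏ t, w (f t)) * G f =
      ∑ f : Fin m → ι, (∏ t, w (f t)) * ∑ i, w i * G (Function.update f s i) := by
  classical
  have hW : ∀ (f : Fin m → ι) (i : ι), (∏ t, w (Function.update f s i t)) * w (f s) = (∏ t, w (f t)) * w i := by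
    intro f i
    rw [← Finset.mul_prod_erase Finset.univ (fun t => w (Function.update f s i t)) (Finset.mem_univ s),
      ← Finset.mul_prod_erase Finset.univ (fun t => w (f t)) (Finset.mem_univ s)]
    have h1 : ∏ x ∈ Finset.univ.erase s, w (Function.update f s i x) = ∏ x ∈ Finset.univ.erase s, w (f x) := by
      apply Finset.prod_congr rfl
      intro x hx
      rw [Function.update_of_ne (Finset.ne_of_mem_erase hx)]
    rw [h1, Function.update_self]
    ring
  have h2 : ∑ f : Fin m → ι, (∏ t, w (f t)) * ∑ i, w i * G (Function.update f s i) =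
      ∑ q : (Fin m → ι) × ι, (∏ t, w (Function.update q.1 s q.2 t)) * w (q.1 s) * G (Function.update q.1 s q.2) := by
    rw [Fintype.sum_prod_type]
    apply Finset.sum_congr rfl
    intro f _
    rw [Finset.mul_sum]
    apply Finset.sum_congr rfl
    intro i _
    rw [hW f i]
    ring
  have h3 : ∑ f : Fin m → ι, (∏ t, w (f t)) * G f =
      ∑ q : (Fin m → ι) × ι, (∏ t, w (q.1 t)) * w q.2 * G q.1 := by
    rw [Fintype.sum_prod_type]
    apply Finset.sum_congr rfl
    intro f _
    have : ∑ i, (∏ t, w (f t)) * w i * G f = (∏ t, w (f t)) * G f * ∑ i, w i := by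
      rw [Finset.mul_sum]
      apply Finset.sum_congr rfl
      intro i _
      ring
    rw [this, hw, mul_one]
  rw [h2, h3]
  symm
  refine Finset.sum_nbij' (fun q : (Fin m → ι) × ι => ((Function.update q.1 s q.2, q.1 s) : (Fin m → ι) × ι))
    (fun q : (Fin m → ι) × ι => ((Function.update q.1 s q.2, q.1 s) : (Fin m → ι) × ι)) ?_ ?_ ?_ ?_ ?_
  · intro q _; exact Finset.mem_univ _
  · intro q _; exact Finset.mem_univ _
  · intro q _
    simp
  · intro q _
    simp
  · intro q _
    rfl

theorem mass_nonneg (ι : Type) [Fintype ι] (w : ι → ℝ) (hw0 : ∀ i, 0 ≤ w i) (p : ι → Prop) : 0 ≤ mass w p := by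
  unfold mass
  apply Finset.sum_nonneg
  intro i _
  split_ifs
  · exact hw0 i
  · exact le_refl 0

theorem mass_le_one (ι : Type) [Fintype ι] (w : ι → ℝ) (hw0 : ∀ i, 0 ≤ w i) (hw : ∑ i, w i = 1) (p : ι → Prop) :
    mass w p ≤ 1 := by
  unfold mass
  rw [← hw]
  apply Finset.sum_le_sum
  intro i _
  split_ifs
  · exact le_refl _
  · exact hw0 i

open Classical in
theorem triple (ι : Type) [Fintype ι] (w : ι → ℝ) (A B C : ι → Prop) :
    ∑ k, w k * ∑ j, w j * ∑ i, w i * (if A i ∧ B j ∧ C k then (1 : ℝ) else 0) =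
      mass w A * mass w B * mass w C := by
  have h1 : ∀ j k, ∑ i, w i * (if A i ∧ B j ∧ C k then (1 : ℝ) else 0) =
      (if B j then (1 : ℝ) else 0) * (if C k then (1 : ℝ) else 0) * mass w A := by
    intro j k
    unfold mass
    rw [Finset.mul_sum]
    apply Finset.sum_congr rfl
    intro i _
    by_cases hA : A i <;> by_cases hB : B j <;> by_cases hC : C k <;> simp [hA, hB, hC]
  have h2 : ∀ k, ∑ j, w j * ∑ i, w i * (if A i ∧ B j ∧ C k then (1 : ℝ) else 0) =
      (if C k then (1 : ℝ) else 0) * mass w A * mass w B := by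
    intro k
    have e : mass w B = ∑ j, w j * (if B j then (1 : ℝ) else 0) := by
      unfold mass
      apply Finset.sum_congr rfl
      intro j _
      by_cases hB : B j <;> simp [hB]
    rw [e, Finset.mul_sum]
    apply Finset.sum_congr rfl
    intro j _
    rw [h1 j k]
    ring
  have e : mass w C = ∑ k, w k * (if C k then (1 : ℝ) else 0) := by
    unfold mass
    apply Finset.sum_congr rfl
    intro j _
    by_cases hB : C j <;> simp [hB]
  rw [e, Finset.mul_sum]
  apply Finset.sum_congr rfl
  intro k _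
  rw [h2 k]
  ring

theorem prod3_le {a b c β : ℝ} (ha : 0 ≤ a) (hb : 0 ≤ b) (hc : 0 ≤ c) (ha1 : a ≤ 1) (hb1 : b ≤ 1) (hc1 : c ≤ 1)
    (h : a ≤ β ∨ b ≤ β ∨ c ≤ β) : a * b * c ≤ β := by
  have hab : a * b ≤ a := mul_le_of_le_one_right ha hb1
  have hab' : a * b ≤ b := mul_le_of_le_one_left hb ha1
  have hab0 : 0 ≤ a * b := mul_nonneg ha hb
  have h1 : a * b * c ≤ a * b := mul_le_of_le_one_right hab0 hc1
  have h2 : a * b * c ≤ c := by
    have : a * b ≤ 1 := le_trans hab ha1
    exact mul_le_of_le_one_left hc this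
  rcases h with h | h | h
  · linarith
  · linarith
  · linarith

theorem one : S_One := by
  classical
  intro m β hβ ι _ w P hw0 hw hyp θ x y z hxy hxz hyz hθ
  set pat : (Fin m → ι) → Prop := fun f =>
      Pat (X (P (θ 0).1 (f (θ 0).2)) (P (θ 1).1 (f (θ 1).2)) (P (θ 2).1 (f (θ 2).2)) (P (θ 3).1 (f (θ 3).2)))
        (P (θ 4).1 (f (θ 4).2)) (P (θ 5).1 (f (θ 5).2)) (P (θ 6).1 (f (θ 6).2)) (P (θ 7).1 (f (θ 7).2))
        (P x.1 (f x.2)) (P y.1 (f y.2)) (P false (f z)) (P true (f z)) with hpat
  have hmass : mass (fun f : Fin m → ι => ∏ t, w (f t)) pat =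
      ∑ f : Fin m → ι, (∏ t, w (f t)) * (if pat f then (1 : ℝ) else 0) := by
    unfold mass
    apply Finset.sum_congr rfl
    intro f _
    by_cases hf : pat f <;> simp [hf]
  rw [hmass]
  rw [resample m ι w hw x.2 (fun f => if pat f then (1 : ℝ) else 0)]
  rw [resample m ι w hw y.2 (fun f => ∑ i, w i * (if pat (Function.update f x.2 i) then (1 : ℝ) else 0))]
  rw [resample m ι w hw z (fun f => ∑ j, w j * ∑ i, w i *
    (if pat (Function.update (Function.update f y.2 j) x.2 i) then (1 : ℝ) else 0))]
  have hW0 : ∀ f : Fin m → ι, 0 ≤ ∏ t, w (f t) := fun f => Finset.prod_nonneg (fun t _ => hw0 _)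
  have hW1 : ∑ f : Fin m → ι, ∏ t, w (f t) = 1 := by
    rw [← Fintype.sum_pow w m, hw, one_pow]
  have key : ∀ f : Fin m → ι, ∑ k, w k * ∑ j, w j * ∑ i, w i *
      (if pat (Function.update (Function.update (Function.update f z k) y.2 j) x.2 i) then (1 : ℝ) else 0) ≤ β := by
    intro f
    set c : Pt := X (P (θ 0).1 (f (θ 0).2)) (P (θ 1).1 (f (θ 1).2)) (P (θ 2).1 (f (θ 2).2))
      (P (θ 3).1 (f (θ 3).2)) with hc
    set r1 : Pt := P (θ 4).1 (f (θ 4).2) with hr1
    set r2 : Pt := P (θ 5).1 (f (θ 5).2) with hr2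
    set r3 : Pt := P (θ 6).1 (f (θ 6).2) with hr3
    set r4 : Pt := P (θ 7).1 (f (θ 7).2) with hr4
    have hev : ∀ k j i, pat (Function.update (Function.update (Function.update f z k) y.2 j) x.2 i) ↔
        Fan c r1 r2 r3 r4 ∧ (Btw c r1 r2 (P x.1 i) ∧ Btw c r3 r4 (P y.1 j) ∧
          (Opp c r2 r3 (P false k) ∧ Opp c r2 r3 (P true k))) := by
      intro k j i
      have e1 : ∀ l, Function.update (Function.update (Function.update f z k) y.2 j) x.2 i (θ l).2 = f (θ l).2 := by
        intro l
        rw [Function.update_of_ne (hθ l).1, Function.update_of_ne (hθ l).2.1, Function.update_of_ne (hθ l).2.2]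
      have e2 : Function.update (Function.update (Function.update f z k) y.2 j) x.2 i x.2 = i :=
        Function.update_self _ _ _
      have e3 : Function.update (Function.update (Function.update f z k) y.2 j) x.2 i y.2 = j := by
        rw [Function.update_of_ne (Ne.symm hxy), Function.update_self]
      have e4 : Function.update (Function.update (Function.update f z k) y.2 j) x.2 i z = k := by
        rw [Function.update_of_ne (Ne.symm hxz), Function.update_of_ne (Ne.symm hyz), Function.update_self]
      rw [hpat]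
      simp only [e1, e2, e3, e4]
      rfl
    by_cases hF : Fan c r1 r2 r3 r4
    · have hT := triple ι w (fun i => Btw c r1 r2 (P x.1 i)) (fun j => Btw c r3 r4 (P y.1 j))
        (fun k => Opp c r2 r3 (P false k) ∧ Opp c r2 r3 (P true k))
      have hE : ∑ k, w k * ∑ j, w j * ∑ i, w i *
          (if pat (Function.update (Function.update (Function.update f z k) y.2 j) x.2 i) then (1 : ℝ) else 0) =
          mass w (fun i => Btw c r1 r2 (P x.1 i)) * mass w (fun j => Btw c r3 r4 (P y.1 j)) *
            mass w (fun k => Opp c r2 r3 (P false k) ∧ Opp c r2 r3 (P true k)) := by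
        rw [← hT]
        refine Finset.sum_congr rfl (fun k _ => ?_)
        congr 1
        refine Finset.sum_congr rfl (fun j _ => ?_)
        congr 1
        refine Finset.sum_congr rfl (fun i _ => ?_)
        congr 1
        by_cases h : pat (Function.update (Function.update (Function.update f z k) y.2 j) x.2 i)
        · rw [if_pos h, if_pos ((hev k j i).1 h).2]
        · rw [if_neg h, if_neg (fun h' => h ((hev k j i).2 ⟨hF, h'⟩))]
      rw [hE]
      exact prod3_le (mass_nonneg ι w hw0 _) (mass_nonneg ι w hw0 _) (mass_nonneg ι w hw0 _)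
        (mass_le_one ι w hw0 hw _) (mass_le_one ι w hw0 hw _) (mass_le_one ι w hw0 hw _)
        (hyp c r1 r2 r3 r4 x.1 y.1 hF)
    · have h1 : ∀ k j i, (if pat (Function.update (Function.update (Function.update f z k) y.2 j) x.2 i)
          then (1 : ℝ) else 0) = 0 := by
        intro k j i
        have := hev k j i
        rw [if_neg]
        rw [this]
        exact fun h => hF h.1
      simp only [h1, mul_zero, Finset.sum_const_zero]
      exact hβ
  calc ∑ f : Fin m → ι, (∏ t, w (f t)) * ∑ k, w k * ∑ j, w j * ∑ i, w i *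
      (if pat (Function.update (Function.update (Function.update f z k) y.2 j) x.2 i) then (1 : ℝ) else 0)
      ≤ ∑ f : Fin m → ι, (∏ t, w (f t)) * β := by
        apply Finset.sum_le_sum
        intro f _
        exact mul_le_mul_of_nonneg_left (key f) (hW0 f)
    _ = β := by rw [← Finset.sum_mul, hW1, one_mul]

end Pool.Agent.W577.PT

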